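import Pool.Agent.H.MP_e97ce4_ag.Hart

set_option autoImplicit false
open AlgebraicGeometry CategoryTheory CategoryTheory.Limits Opposite TopologicalSpace

namespace Pool.Agent.H.MP_e97ce4_ag

/-- restriction of global functions on `Spec B` to an open subscheme -/
noncomputable def rho (B : CommRingCat.{0}) (O : (Spec B).Opens) : B ⟶ Γ(O.toScheme, ⊤) :=
  (Scheme.ΓSpecIso B).inv ≫ O.ι.appTop

theorem rho_isIso (B : CommRingCat.{0}) (x y : B) (h : Hart x y) (O : (Spec B).Opens)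
    (hO : O = (PrimeSpectrum.basicOpen x ⊔ PrimeSpectrum.basicOpen y : (Spec B).Opens)) :
    IsIso (rho B O) := by
  have h1 := hartogs B x y h (O.ι ''ᵁ ⊤) (by rw [O.ι_image_top, hO])
  rw [ConcreteCategory.isIso_iff_bijective]
  exact h1

theorem rho_nat {R B : CommRingCat.{0}} (φ : R ⟶ B) (U : (Spec R).Opens) :
    φ ≫ rho B (Spec.map φ ⁻¹ᵁ U) = rho R U ≫ (Spec.map φ ∣_ U).appTop := by
  unfold rho
  rw [Category.assoc, ← Scheme.Hom.comp_appTop, morphismRestrict_ι, Scheme.Hom.comp_appTop,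
    Scheme.ΓSpecIso_inv_naturality_assoc]

theorem preimage_U {R B : CommRingCat.{0}} (φ : R ⟶ B) (x y : R) (U : (Spec R).Opens)
    (hU : U = (PrimeSpectrum.basicOpen x ⊔ PrimeSpectrum.basicOpen y : (Spec R).Opens)) :
    Spec.map φ ⁻¹ᵁ U =
      (PrimeSpectrum.basicOpen (φ x) ⊔ PrimeSpectrum.basicOpen (φ y) : (Spec B).Opens) := by
  subst hU
  rfl

theorem not_affine (B : CommRingCat.{0}) (x y : B) (h : Hart x y) (O : (Spec B).Opens)
    (hO : O = (PrimeSpectrum.basicOpen x ⊔ PrimeSpectrum.basicOpen y : (Spec B).Opens))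
    (hne : Ideal.span {x, y} ≠ (⊤ : Ideal B)) : ¬ IsAffine O.toScheme := by
  intro haff
  have := rho_isIso B x y h O hO
  have hb : ∀ r : B, O.toScheme.basicOpen (rho B O r) = O.ι ⁻¹ᵁ (PrimeSpectrum.basicOpen r) := by
    intro r
    rw [← basicOpen_eq_of_affine, Scheme.preimage_basicOpen_top]
    rfl
  have h2 : Ideal.span {rho B O x, rho B O y} = ⊤ := by
    rw [← (isAffineOpen_top O.toScheme).self_le_iSup_basicOpen_iff]
    intro p _
    have hp : p.1 ∈ (PrimeSpectrum.basicOpen x ⊔ PrimeSpectrum.basicOpen y : (Spec B).Opens) :=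
      hO ▸ p.2
    rw [Opens.mem_iSup]
    rcases hp with hp | hp
    · refine ⟨⟨rho B O x, by simp⟩, ?_⟩
      rw [hb]; exact hp
    · refine ⟨⟨rho B O y, by simp⟩, ?_⟩
      rw [hb]; exact hp
  apply hne
  rw [Ideal.eq_top_iff_one, Ideal.mem_span_pair] at h2 ⊢
  obtain ⟨a, b, hab⟩ := h2
  refine ⟨inv (rho B O) a, inv (rho B O) b, ?_⟩
  have := congrArg (inv (rho B O)) hab
  simpa using this

/-- an isomorphism of the restricted families gives an isomorphism of rings. -/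
theorem iso_of_iso {R A S : CommRingCat.{0}} (φ : R ⟶ A) (ψ : R ⟶ S) (x y : R)
    (hA : Hart (φ x) (φ y)) (hS : Hart (ψ x) (ψ y)) (U : (Spec R).Opens)
    (hU : U = (PrimeSpectrum.basicOpen x ⊔ PrimeSpectrum.basicOpen y : (Spec R).Opens))
    (E : (Spec.map φ ⁻¹ᵁ U).toScheme ≅ (Spec.map ψ ⁻¹ᵁ U).toScheme)
    (hE : E.hom ≫ Spec.map ψ ∣_ U = Spec.map φ ∣_ U) :
    ∃ e : S ≅ A, ψ ≫ e.hom = φ := by
  have := rho_isIso A _ _ hA _ (preimage_U φ x y U hU)
  have := rho_isIso S _ _ hS _ (preimage_U ψ x y U hU)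
  have : IsIso E.hom.appTop := inferInstanceAs (IsIso (E.hom.app ⊤))
  refine ⟨asIso (rho S (Spec.map ψ ⁻¹ᵁ U) ≫ E.hom.appTop ≫ inv (rho A (Spec.map φ ⁻¹ᵁ U))), ?_⟩
  rw [asIso_hom, ← Category.assoc, ← Category.assoc, IsIso.comp_inv_eq, rho_nat, rho_nat,
    Category.assoc, ← Scheme.Hom.comp_appTop, hE]

/-- local triviality from two pushout squares -/
theorem loc_triv {k R A F L : CommRingCat.{0}} (s : k ⟶ R) (s' : k ⟶ F) (φ : R ⟶ A) (x : R)
    (a : CommRingCat.of (Localization.Away x) ⟶ L) (c : A ⟶ L) (b : F ⟶ L)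
    (h1 : IsPushout (CommRingCat.ofHom (algebraMap R (Localization.Away x))) φ a c)
    (h2 : IsPushout (s ≫ CommRingCat.ofHom (algebraMap R (Localization.Away x))) s' a b)
    (U : (Spec R).Opens) (hx : PrimeSpectrum.basicOpen x ≤ U) :
    ∃ e : ((Spec.map φ ∣_ U) ⁻¹ᵁ (U.ι ⁻¹ᵁ PrimeSpectrum.basicOpen x)).toScheme ≅
        pullback ((U.ι ⁻¹ᵁ PrimeSpectrum.basicOpen x).ι ≫ U.ι ≫ Spec.map s) (Spec.map s'),
      e.hom ≫ pullback.fst ((U.ι ⁻¹ᵁ PrimeSpectrum.basicOpen x).ι ≫ U.ι ≫ Spec.map s)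
        (Spec.map s') = (Spec.map φ ∣_ U) ∣_ (U.ι ⁻¹ᵁ PrimeSpectrum.basicOpen x) := by
  set V : U.toScheme.Opens := U.ι ⁻¹ᵁ PrimeSpectrum.basicOpen x with hV
  have P1 := isPullback_morphismRestrict (Spec.map φ ∣_ U) V
  have P2 := isPullback_morphismRestrict (Spec.map φ) U
  have P3 := P1.paste_vert P2
  have Q1 := isPullback_SpecMap_of_isPushout _ _ _ _ h1
  have Q2 := isPullback_SpecMap_of_isPushout _ _ _ _ h2
  have hr : Set.range (V.ι ≫ U.ι) =
      Set.range (Spec.map (CommRingCat.ofHom (algebraMap R (Localization.Away x)))) := by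
    have e1 := Scheme.Hom.opensRange_localizationAway (R := R) x
    have e2 : Set.range (Spec.map (CommRingCat.ofHom (algebraMap R (Localization.Away x)))) =
        (PrimeSpectrum.basicOpen x : Set (PrimeSpectrum R)) := congrArg SetLike.coe e1
    rw [e2]
    ext p
    constructor
    · rintro ⟨q, rfl⟩
      exact q.2
    · intro hp
      exact ⟨⟨⟨p, hx hp⟩, hp⟩, rfl⟩
  let t := IsOpenImmersion.isoOfRangeEq _ _ hr
  have ht : t.hom ≫ Spec.map (CommRingCat.ofHom (algebraMap R (Localization.Away x))) =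
    V.ι ≫ U.ι := IsOpenImmersion.isoOfRangeEq_hom_fac _ _ hr
  have P4 : IsPullback ((Spec.map φ ∣_ U) ∣_ V ≫ t.hom)
      (((Spec.map φ ∣_ U) ⁻¹ᵁ V).ι ≫ (Spec.map φ ⁻¹ᵁ U).ι)
      (Spec.map (CommRingCat.ofHom (algebraMap R (Localization.Away x)))) (Spec.map φ) :=
    P3.of_iso (Iso.refl _) t (Iso.refl _) (Iso.refl _) (by simp) (by simp) (by simp [ht]) (by simp)
  let w := P4.isoIsPullback _ _ Q1
  have hw : w.hom ≫ Spec.map a = (Spec.map φ ∣_ U) ∣_ V ≫ t.hom :=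
    P4.isoIsPullback_hom_fst _ _ Q1
  have P5 : IsPullback ((Spec.map φ ∣_ U) ∣_ V) (w.hom ≫ Spec.map b)
      (V.ι ≫ U.ι ≫ Spec.map s) (Spec.map s') := by
    refine Q2.of_iso w.symm t.symm (Iso.refl _) (Iso.refl _) ?_ ?_ ?_ ?_
    · simp [Iso.eq_inv_comp, reassoc_of% hw]
    · simp
    · simp [Iso.eq_inv_comp, reassoc_of% ht]
    · simp
  exact ⟨P5.isoPullback, P5.isoPullback_hom_fst⟩

theorem triv_iso {k R S F : CommRingCat.{0}} (s : k ⟶ R) (s' : k ⟶ F) (ψ : R ⟶ S) (b : F ⟶ S)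
    (h : IsPushout s s' ψ b) (U : (Spec R).Opens) :
    ∃ e : (Spec.map ψ ⁻¹ᵁ U).toScheme ≅ pullback (U.ι ≫ Spec.map s) (Spec.map s'),
      e.hom ≫ pullback.fst (U.ι ≫ Spec.map s) (Spec.map s') = Spec.map ψ ∣_ U := by
  have P2 := isPullback_morphismRestrict (Spec.map ψ) U
  have Q1 := isPullback_SpecMap_of_isPushout _ _ _ _ h
  have P3 := P2.paste_vert Q1
  exact ⟨P3.isoPullback, P3.isoPullback_hom_fst⟩

end Pool.Agent.H.MP_e97ce4_ag
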