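import Mathlib

set_option autoImplicit false
open AlgebraicGeometry CategoryTheory CategoryTheory.Limits Opposite TopologicalSpace

namespace Pool.Agent.H.MP_e97ce4_ag

/-- `x, y` are regular and form a regular sequence. -/
structure Hart {B : Type} [CommRing B] (x y : B) : Prop where
  hx : ∀ r, x * r = 0 → r = 0
  hy : ∀ r, y * r = 0 → r = 0
  hxy : ∀ r s, y * r = x * s → x ∣ r

theorem Hart.pow_x {B : Type} [CommRing B] {x y : B} (h : Hart x y) (n : ℕ) (r : B)
    (hr : x ^ n * r = 0) : r = 0 := by
  induction n generalizing r with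
  | zero => simpa using hr
  | succ n ih =>
    apply h.hx
    apply ih
    rw [← hr]; ring

theorem Hart.pow_y {B : Type} [CommRing B] {x y : B} (h : Hart x y) (n : ℕ) (r : B)
    (hr : y ^ n * r = 0) : r = 0 := by
  induction n generalizing r with
  | zero => simpa using hr
  | succ n ih =>
    apply h.hy
    apply ih
    rw [← hr]; ring

theorem Hart.dvd_one {B : Type} [CommRing B] {x y : B} (h : Hart x y) (m : ℕ) (r : B)
    (hr : x ∣ y ^ m * r) : x ∣ r := by
  induction m generalizing r with
  | zero => simpa using hr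
  | succ m ih =>
    apply ih
    obtain ⟨s, hs⟩ := hr
    apply h.hxy (y ^ m * r) s
    rw [← hs]; ring

theorem Hart.dvd_pow {B : Type} [CommRing B] {x y : B} (h : Hart x y) (n m : ℕ) (r : B)
    (hr : x ^ n ∣ y ^ m * r) : x ^ n ∣ r := by
  induction n generalizing r with
  | zero => simp
  | succ n ih =>
    have h1 : x ∣ r := h.dvd_one m r (dvd_trans (dvd_pow_self x (Nat.succ_ne_zero n)) hr)
    obtain ⟨r', rfl⟩ := h1
    obtain ⟨s, hs⟩ := hr
    have h2 : y ^ m * r' = x ^ n * s := by
      have : x * (y ^ m * r' - x ^ n * s) = 0 := by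
        rw [mul_sub]
        have : x * (y ^ m * r') = x ^ (n + 1) * s := by rw [← hs]; ring
        rw [this]; ring
      exact sub_eq_zero.mp (h.hx _ this)
    have h3 := ih r' ⟨s, h2⟩
    rw [pow_succ']
    exact mul_dvd_mul_left x h3

theorem Hart.of_free {R B : Type} [CommRing R] [CommRing B] [Algebra R B] [Module.Free R B]
    {x y : R} (h : Hart x y) : Hart (algebraMap R B x) (algebraMap R B y) := by
  let b := Module.Free.chooseBasis R B
  refine ⟨?_, ?_, ?_⟩
  · intro r hr
    rw [← Algebra.smul_def] at hr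
    apply b.repr.injective
    ext i
    have := congrArg (fun w => b.repr w i) hr
    simp only [map_smul, Finsupp.smul_apply, smul_eq_mul, map_zero, Finsupp.zero_apply] at this
    simpa using h.hx _ this
  · intro r hr
    rw [← Algebra.smul_def] at hr
    apply b.repr.injective
    ext i
    have := congrArg (fun w => b.repr w i) hr
    simp only [map_smul, Finsupp.smul_apply, smul_eq_mul, map_zero, Finsupp.zero_apply] at this
    simpa using h.hy _ this
  · intro r s hrs
    rw [← Algebra.smul_def, ← Algebra.smul_def] at hrs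
    have hd : ∀ i, x ∣ b.repr r i := by
      intro i
      have := congrArg (fun w => b.repr w i) hrs
      simp only [map_smul, Finsupp.smul_apply, smul_eq_mul] at this
      exact h.hxy _ _ this
    rw [← b.linearCombination_repr r, Finsupp.linearCombination_apply, Finsupp.sum]
    apply Finset.dvd_sum
    intro i _
    obtain ⟨c, hc⟩ := hd i
    rw [hc, Algebra.smul_def, map_mul, mul_assoc]
    exact dvd_mul_right _ _

theorem hartogs (B : CommRingCat.{0}) (x y : B) (h : Hart x y) (O : (Spec B).Opens)
    (hO : O = (PrimeSpectrum.basicOpen x ⊔ PrimeSpectrum.basicOpen y : (Spec B).Opens)) :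
    Function.Bijective (algebraMap B Γ(Spec B, O)) := by
  subst hO
  set Dx : (Spec B).Opens := PrimeSpectrum.basicOpen x with hDx
  set Dy : (Spec B).Opens := PrimeSpectrum.basicOpen y with hDy
  set Dxy : (Spec B).Opens := PrimeSpectrum.basicOpen (x * y) with hDxy
  have res : ∀ (V W : (Spec B).Opens) (i : V ≤ W) (r : B),
      (Spec B).presheaf.map (homOfLE i).op (algebraMap B Γ(Spec B, W) r) =
        algebraMap B Γ(Spec B, V) r := by
    intro V W i r
    rw [IsAffineOpen.algebraMap_Spec_obj, IsAffineOpen.algebraMap_Spec_obj,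
      ← CommRingCat.comp_apply, Category.assoc, ← Functor.map_comp]
    rfl
  have lx : IsLocalization.Away x Γ(Spec B, Dx) := inferInstanceAs
    (IsLocalization.Away x Γ(Spec B, PrimeSpectrum.basicOpen x))
  have ly : IsLocalization.Away y Γ(Spec B, Dy) := inferInstanceAs
    (IsLocalization.Away y Γ(Spec B, PrimeSpectrum.basicOpen y))
  have lxy : IsLocalization.Away (x * y) Γ(Spec B, Dxy) := inferInstanceAs
    (IsLocalization.Away (x * y) Γ(Spec B, PrimeSpectrum.basicOpen (x * y)))
  have h1 : Dxy ≤ Dx := PrimeSpectrum.basicOpen_mul_le_left x y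
  have h2 : Dxy ≤ Dy := PrimeSpectrum.basicOpen_mul_le_right x y
  constructor
  · rw [injective_iff_map_eq_zero]
    intro r hr
    have h3 := res Dx (Dx ⊔ Dy) le_sup_left r
    rw [hr, map_zero] at h3
    obtain ⟨⟨_, n, rfl⟩, hn⟩ := (IsLocalization.map_eq_zero_iff (Submonoid.powers x) _ r).mp h3.symm
    exact h.pow_x n r hn
  · intro s
    obtain ⟨n, a, ha⟩ := IsLocalization.Away.surj x
      ((Spec B).presheaf.map (homOfLE (le_sup_left : Dx ≤ Dx ⊔ Dy)).op s)
    obtain ⟨m, b, hb⟩ := IsLocalization.Away.surj y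
      ((Spec B).presheaf.map (homOfLE (le_sup_right : Dy ≤ Dx ⊔ Dy)).op s)
    have ha' := congrArg ((Spec B).presheaf.map (homOfLE h1).op) ha
    have hb' := congrArg ((Spec B).presheaf.map (homOfLE h2).op) hb
    rw [map_mul, map_pow, res, res, ← CommRingCat.comp_apply, ← Functor.map_comp] at ha' hb'
    have e1 : (homOfLE (le_sup_left : Dx ≤ Dx ⊔ Dy)).op ≫ (homOfLE h1).op =
      (homOfLE (le_sup_right : Dy ≤ Dx ⊔ Dy)).op ≫ (homOfLE h2).op := rfl
    rw [e1] at ha'
    have key : algebraMap B Γ(Spec B, Dxy) (y ^ m * a - x ^ n * b) = 0 := by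
      rw [map_sub, map_mul, map_mul, map_pow, map_pow, ← ha', ← hb']; ring
    obtain ⟨⟨_, k, rfl⟩, hk⟩ := (IsLocalization.map_eq_zero_iff (Submonoid.powers (x * y)) _ _).mp key
    have key2 : y ^ m * a = x ^ n * b := by
      have : x ^ k * (y ^ k * (y ^ m * a - x ^ n * b)) = 0 := by
        rw [← hk]; simp only [mul_pow]; ring
      exact sub_eq_zero.mp (h.pow_y k _ (h.pow_x k _ this))
    obtain ⟨r, rfl⟩ := h.dvd_pow n m a ⟨b, key2⟩
    have key3 : b = y ^ m * r := by
      have : x ^ n * (y ^ m * r - b) = 0 := by rw [mul_sub, ← key2]; ring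
      exact (sub_eq_zero.mp (h.pow_x n _ this)).symm
    subst key3
    refine ⟨r, ?_⟩
    apply (Spec B).sheaf.eq_of_locally_eq₂ (homOfLE (le_sup_left : Dx ≤ Dx ⊔ Dy))
      (homOfLE (le_sup_right : Dy ≤ Dx ⊔ Dy)) le_rfl
    · change (Spec B).presheaf.map _ _ = (Spec B).presheaf.map _ _
      rw [res]
      have hu : IsUnit (algebraMap B Γ(Spec B, Dx) x ^ n) :=
        (IsLocalization.Away.algebraMap_isUnit x).pow n
      apply hu.mul_right_cancel
      rw [ha, map_mul, map_pow]; ring
    · change (Spec B).presheaf.map _ _ = (Spec B).presheaf.map _ _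
      rw [res]
      have hu : IsUnit (algebraMap B Γ(Spec B, Dy) y ^ m) :=
        (IsLocalization.Away.algebraMap_isUnit y).pow m
      apply hu.mul_right_cancel
      rw [hb, map_mul, map_pow]; ring

end Pool.Agent.H.MP_e97ce4_ag
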