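import Pool.Agent.H.MP_e97ce4_ag.Geo

set_option autoImplicit false
open AlgebraicGeometry CategoryTheory CategoryTheory.Limits Opposite TopologicalSpace

namespace Pool.Agent.H.MP_e97ce4_ag

abbrev RR : Type := MvPolynomial (Fin 2) ℂ
abbrev PP : Type := MvPolynomial (Fin 2) RR
noncomputable def xx : RR := MvPolynomial.X 0
noncomputable def yy : RR := MvPolynomial.X 1
/-- `x v - y u` -/
noncomputable def ww : PP := MvPolynomial.C xx * MvPolynomial.X 1 - MvPolynomial.C yy * MvPolynomial.X 0
noncomputable def qq : Polynomial PP := Polynomial.X ^ 2 - Polynomial.C ww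
abbrev AA : Type := AdjoinRoot qq

theorem qq_monic : qq.Monic := Polynomial.monic_X_pow_sub_C _ (by norm_num)

instance : Module.Free PP AA := Module.Free.of_basis (AdjoinRoot.powerBasis' qq_monic).basis

instance : Module.Free RR AA := Module.Free.trans (S := PP)

theorem hartR : Hart xx yy := by
  refine ⟨?_, ?_, ?_⟩
  · intro r hr
    exact (mul_eq_zero.mp hr).resolve_left (MvPolynomial.X_ne_zero _)
  · intro r hr
    exact (mul_eq_zero.mp hr).resolve_left (MvPolynomial.X_ne_zero _)
  · intro r s h
    have hp : Prime xx := MvPolynomial.X_prime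
    have : xx ∣ yy * r := ⟨s, h⟩
    rcases hp.dvd_or_dvd this with h1 | h1
    · exfalso
      rw [xx, yy, MvPolynomial.X_dvd_X] at h1
      exact absurd h1 (by decide)
    · exact h1

noncomputable def tt : AA := AdjoinRoot.root qq
noncomputable def uu : AA := algebraMap PP AA (MvPolynomial.X 0)
noncomputable def vv : AA := algebraMap PP AA (MvPolynomial.X 1)

theorem algC (r : RR) : algebraMap PP AA (MvPolynomial.C r) = algebraMap RR AA r := by
  rw [IsScalarTower.algebraMap_apply RR PP AA]; rfl

theorem rel : tt ^ 2 = algebraMap RR AA xx * vv - algebraMap RR AA yy * uu := by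
  have h : Polynomial.eval₂ (AdjoinRoot.of qq) tt (Polynomial.X ^ 2 - Polynomial.C ww) = 0 :=
    AdjoinRoot.eval₂_root qq
  have : tt ^ 2 - algebraMap PP AA ww = 0 := by
    rw [← h]
    simp
  rw [sub_eq_zero] at this
  rw [this, ww, map_sub, map_mul, map_mul, algC, algC, uu, vv]

/-- the universal property of `AA` -/
noncomputable def liftA {T : Type} [CommRing T] (f : RR →+* T) (t u v : T)
    (h : t ^ 2 = f xx * v - f yy * u) : AA →+* T :=
  AdjoinRoot.lift (MvPolynomial.eval₂Hom f ![u, v]) t (by
    rw [qq]; simp [ww, h])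

theorem liftA_alg {T : Type} [CommRing T] (f : RR →+* T) (t u v : T)
    (h : t ^ 2 = f xx * v - f yy * u) (r : RR) : liftA f t u v h (algebraMap RR AA r) = f r := by
  rw [← algC, liftA, AdjoinRoot.algebraMap_eq, AdjoinRoot.lift_of]; simp

theorem liftA_t {T : Type} [CommRing T] (f : RR →+* T) (t u v : T)
    (h : t ^ 2 = f xx * v - f yy * u) : liftA f t u v h tt = t := by
  rw [tt, liftA, AdjoinRoot.lift_root]

theorem liftA_u {T : Type} [CommRing T] (f : RR →+* T) (t u v : T)
    (h : t ^ 2 = f xx * v - f yy * u) : liftA f t u v h uu = u := by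
  rw [uu, liftA, AdjoinRoot.algebraMap_eq, AdjoinRoot.lift_of]; simp

theorem liftA_v {T : Type} [CommRing T] (f : RR →+* T) (t u v : T)
    (h : t ^ 2 = f xx * v - f yy * u) : liftA f t u v h vv = v := by
  rw [vv, liftA, AdjoinRoot.algebraMap_eq, AdjoinRoot.lift_of]; simp

theorem homA_ext {T : Type} [CommRing T] (f g : AA →+* T)
    (h0 : ∀ r, f (algebraMap RR AA r) = g (algebraMap RR AA r)) (h1 : f tt = g tt)
    (h2 : f uu = g uu) (h3 : f vv = g vv) : f = g := by
  apply AdjoinRoot.ringHom_ext
  · apply MvPolynomial.ringHom_ext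
    · intro r
      have := h0 r
      rw [← algC] at this
      exact this
    · intro i
      fin_cases i
      · exact h2
      · exact h3
  · exact h1

/-- the map to the dual numbers -/
noncomputable def chi : AA →+* DualNumber ℂ :=
  liftA ((algebraMap ℂ (DualNumber ℂ)).comp (MvPolynomial.constantCoeff)) DualNumber.eps 0 0
    (by simp [pow_two])

theorem span_ne : Ideal.span {algebraMap RR AA xx, algebraMap RR AA yy} ≠ ⊤ := by
  intro h
  rw [Ideal.eq_top_iff_one, Ideal.mem_span_pair] at h
  obtain ⟨a, b, hab⟩ := h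
  have := congrArg chi hab
  rw [map_add, map_mul, map_mul, chi, liftA_alg, liftA_alg] at this
  simp [xx, yy] at this

theorem no_iso (e : PP ≃+* AA) (he : ∀ r, e (algebraMap RR PP r) = algebraMap RR AA r) : False := by
  let π : PP →+* MvPolynomial (Fin 2) ℂ := MvPolynomial.map MvPolynomial.constantCoeff
  let χ : MvPolynomial (Fin 2) ℂ →+* DualNumber ℂ :=
    MvPolynomial.eval₂Hom (algebraMap ℂ _) (fun i => chi (e (MvPolynomial.X i)))
  have h1 : χ.comp π = chi.comp e.toRingHom := by
    apply MvPolynomial.ringHom_ext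
    · intro r
      have := he r
      rw [MvPolynomial.algebraMap_eq] at this
      simp [χ, π, this, chi, liftA_alg]
    · intro i
      simp [χ, π]
  have he' : ∀ r, e.symm (algebraMap RR AA r) = MvPolynomial.C r := by
    intro r
    rw [← he, RingEquiv.symm_apply_apply]; rfl
  have h2 : π (e.symm tt) ^ 2 = 0 := by
    rw [← map_pow, ← map_pow, rel]
    simp [he', π, xx, yy]
  have h3 : π (e.symm tt) = 0 := pow_eq_zero_iff (by norm_num) |>.mp h2
  have h4 := congrArg (fun f => f (e.symm tt)) h1
  simp only [RingHom.comp_apply, h3, map_zero, RingEquiv.toRingHom_eq_coe, RingHom.coe_coe,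
    RingEquiv.apply_symm_apply] at h4
  rw [chi, liftA_t] at h4
  have := congrArg TrivSqZeroExt.snd h4
  simp at this

theorem mv_pushout (k R : Type) [CommRing k] [CommRing R] [Algebra k R] :
    IsPushout (CommRingCat.ofHom (algebraMap k R))
      (CommRingCat.ofHom (algebraMap k (MvPolynomial (Fin 2) k)))
      (CommRingCat.ofHom (algebraMap R (MvPolynomial (Fin 2) R)))
      (CommRingCat.ofHom (MvPolynomial.map (algebraMap k R))) := by
  let := MvPolynomial.algebraMvPolynomial (σ := Fin 2) (R := k) (S := R)
  exact CommRingCat.isPushout_of_isPushout k R (MvPolynomial (Fin 2) k) (MvPolynomial (Fin 2) R)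

abbrev Rx : Type := Localization.Away xx
abbrev Ry : Type := Localization.Away yy

noncomputable def cx : AA →+* MvPolynomial (Fin 2) Rx :=
  liftA (MvPolynomial.C.comp (algebraMap RR Rx)) (MvPolynomial.X 0) (MvPolynomial.X 1)
    (MvPolynomial.C (IsLocalization.Away.invSelf xx) *
      (MvPolynomial.X 0 ^ 2 + MvPolynomial.C (algebraMap RR Rx yy) * MvPolynomial.X 1)) (by
    simp only [RingHom.comp_apply]
    rw [← mul_assoc, ← map_mul, IsLocalization.Away.mul_invSelf, map_one]; ring)

noncomputable def cy : AA →+* MvPolynomial (Fin 2) Ry :=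
  liftA (MvPolynomial.C.comp (algebraMap RR Ry)) (MvPolynomial.X 0)
    (MvPolynomial.C (IsLocalization.Away.invSelf yy) *
      (MvPolynomial.C (algebraMap RR Ry xx) * MvPolynomial.X 1 - MvPolynomial.X 0 ^ 2))
    (MvPolynomial.X 1) (by
    simp only [RingHom.comp_apply]
    rw [← mul_assoc, ← map_mul, IsLocalization.Away.mul_invSelf, map_one]; ring)

theorem pushx : IsPushout (CommRingCat.ofHom (algebraMap RR Rx))
    (CommRingCat.ofHom (algebraMap RR AA))
    (CommRingCat.ofHom (algebraMap Rx (MvPolynomial (Fin 2) Rx))) (CommRingCat.ofHom cx) := by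
  refine ⟨⟨?_⟩, ⟨PushoutCocone.IsColimit.mk _
    (fun s => CommRingCat.ofHom (MvPolynomial.eval₂Hom s.inl.hom ![s.inr.hom tt, s.inr.hom uu]))
    ?_ ?_ ?_⟩⟩
  · ext1
    apply RingHom.ext
    intro r
    simp [cx, liftA_alg]
  · intro s
    ext1
    apply RingHom.ext
    intro r
    simp
  · intro s
    have hs : ∀ r, s.inl.hom (algebraMap RR Rx r) = s.inr.hom (algebraMap RR AA r) :=
      fun r => congrArg (fun f => f.hom r) s.condition
    ext1
    apply homA_ext
    · intro r
      simp [cx, liftA_alg, hs]
    · simp [cx, liftA_t]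
    · simp [cx, liftA_u]
    · have h1 : s.inl.hom (IsLocalization.Away.invSelf xx) * s.inr.hom (algebraMap RR AA xx) = 1 := by
        rw [← hs, ← map_mul, mul_comm, IsLocalization.Away.mul_invSelf, map_one]
      have h2 := congrArg s.inr.hom rel
      simp only [map_pow, map_sub, map_mul] at h2
      simp [cx, liftA_v, hs]
      rw [h2]
      linear_combination (s.inr.hom vv) * h1
  · intro s m h1 h2
    ext1
    apply MvPolynomial.ringHom_ext
    · intro r
      simp [← h1]
    · intro i
      fin_cases i
      · simp [← h2, cx, liftA_t]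
      · simp [← h2, cx, liftA_u]

theorem pushy : IsPushout (CommRingCat.ofHom (algebraMap RR Ry))
    (CommRingCat.ofHom (algebraMap RR AA))
    (CommRingCat.ofHom (algebraMap Ry (MvPolynomial (Fin 2) Ry))) (CommRingCat.ofHom cy) := by
  refine ⟨⟨?_⟩, ⟨PushoutCocone.IsColimit.mk _
    (fun s => CommRingCat.ofHom (MvPolynomial.eval₂Hom s.inl.hom ![s.inr.hom tt, s.inr.hom vv]))
    ?_ ?_ ?_⟩⟩
  · ext1
    apply RingHom.ext
    intro r
    simp [cy, liftA_alg]
  · intro s
    ext1
    apply RingHom.ext
    intro r
    simp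
  · intro s
    have hs : ∀ r, s.inl.hom (algebraMap RR Ry r) = s.inr.hom (algebraMap RR AA r) :=
      fun r => congrArg (fun f => f.hom r) s.condition
    ext1
    apply homA_ext
    · intro r
      simp [cy, liftA_alg, hs]
    · simp [cy, liftA_t]
    · have h1 : s.inl.hom (IsLocalization.Away.invSelf yy) * s.inr.hom (algebraMap RR AA yy) = 1 := by
        rw [← hs, ← map_mul, mul_comm, IsLocalization.Away.mul_invSelf, map_one]
      have h2 := congrArg s.inr.hom rel
      simp only [map_pow, map_sub, map_mul] at h2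
      simp [cy, liftA_u, hs]
      rw [h2]
      linear_combination (s.inr.hom uu) * h1
    · simp [cy, liftA_v]
  · intro s m h1 h2
    ext1
    apply MvPolynomial.ringHom_ext
    · intro r
      simp [← h1]
    · intro i
      fin_cases i
      · simp [← h2, cy, liftA_t]
      · simp [← h2, cy, liftA_v]

end Pool.Agent.H.MP_e97ce4_ag
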